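import Pool.Agent.Helper2.FX.StG

set_option autoImplicit false

/-!
# FX MODULE GLG: the gluing theorem for tame functions
-/

namespace Pool.Agent.Helper90.FX

open Set Metric Pool.Agent.Helper84.FX Pool.Agent.Helper2.FX

theorem TT_inter_ball {E : Type} {G : Type} [NormedAddCommGroup G]
    [NormedSpace ℝ G] (M : Set E) (g : E → G) :
    TT M g ∩ {q : E × G | ‖q.2‖ < 1} = (M ∩ {x | g x = 0}) ×ˢ ball (0 : G) 1 := by
  ext ⟨x, v⟩
  constructor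
  · rintro ⟨⟨hx, -, hg⟩, hv⟩
    have hv' : ‖v‖ < 1 := hv
    have hg' : g x = ‖g x‖ • v := hg
    have h1 : ‖g x‖ = ‖g x‖ * ‖v‖ := by
      have h2 := congrArg norm hg'
      rwa [norm_smul, norm_norm] at h2
    have h3 : ‖g x‖ = 0 := by
      by_contra hne
      have hpos : 0 < ‖g x‖ := lt_of_le_of_ne (norm_nonneg _) (Ne.symm hne)
      nlinarith
    refine ⟨⟨hx, norm_eq_zero.1 h3⟩, ?_⟩
    rw [mem_ball_zero_iff]
    exact hv'
  · rintro ⟨⟨hx, hg⟩, hv⟩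
    have hg' : g x = 0 := hg
    have hv' : ‖v‖ < 1 := mem_ball_zero_iff.1 hv
    refine ⟨⟨hx, hv'.le, ?_⟩, hv'⟩
    change g x = ‖g x‖ • v
    rw [hg', norm_zero, zero_smul]

theorem TT_inter_ball_ne {E : Type} {G : Type} [NormedAddCommGroup G]
    [NormedSpace ℝ G] (M : Set E) (g : E → G) :
    TT M g ∩ ({q : E × G | q.2 ≠ 0} ∩ {q : E × G | ‖q.2‖ < 1}) =
      (M ∩ {x | g x = 0}) ×ˢ (ball (0 : G) 1 ∩ {v | v ≠ 0}) := by
  have h : TT M g ∩ ({q : E × G | q.2 ≠ 0} ∩ {q : E × G | ‖q.2‖ < 1}) =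
      (TT M g ∩ {q : E × G | ‖q.2‖ < 1}) ∩ {q : E × G | q.2 ≠ 0} := by
    ext q
    constructor
    · rintro ⟨h1, h2, h3⟩
      exact ⟨⟨h1, h3⟩, h2⟩
    · rintro ⟨⟨h1, h3⟩, h2⟩
      exact ⟨h1, h2, h3⟩
  rw [h, TT_inter_ball]
  ext ⟨x, v⟩
  constructor
  · rintro ⟨⟨h1, h2⟩, h3⟩
    exact ⟨h1, h2, h3⟩
  · rintro ⟨h1, h2, h3⟩
    exact ⟨⟨h1, h2⟩, h3⟩

theorem hGLG : StGLU → StCMP → StCN3 → StPRD → StGLG := by
  intro hGLU hCMP hCN3 hPRD E E' _ _ G _ _ N M f g hf hM hN h0 h1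
  rcases isEmpty_or_nonempty E with hE | hE
  · exact ⟨hf, fun n a => isEmptyElim (a 0)⟩
  have hN' : ∀ x : E, x ∈ N → f x ∈ M := fun x hx => hf.2 hx
  have hmaps : ∀ q : E × G, q ∈ TT N (g ∘ f) → ((f q.1, q.2) : E' × G) ∈ TT M g := by
    rintro ⟨x, v⟩ ⟨hx, hv, hg⟩
    exact ⟨hN' x hx, hv, hg⟩
  have hcont : ContinuousOn (fun q : E × G => ((f q.1, q.2) : E' × G)) (TT N (g ∘ f)) := by
    refine ContinuousOn.prodMk ?_ continuousOn_snd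
    exact hf.1.comp continuousOn_fst (fun q hq => hq.1)
  have hTf : Mp (TT N (g ∘ f)) (TT M g) (fun q : E × G => ((f q.1, q.2) : E' × G)) :=
    ⟨hcont, fun q hq => hmaps q hq⟩
  -- (a) the parts with nonzero vector
  have ha : WE (TT N (g ∘ f) ∩ {q : E × G | q.2 ≠ 0}) (TT M g ∩ {q : E' × G | q.2 ≠ 0})
      (fun q : E × G => ((f q.1, q.2) : E' × G)) := by
    have hmp : Mp (TT N (g ∘ f) ∩ {q : E × G | q.2 ≠ 0}) (TT M g ∩ {q : E' × G | q.2 ≠ 0})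
        (fun q : E × G => ((f q.1, q.2) : E' × G)) :=
      ⟨hcont.mono inter_subset_left, fun q hq => ⟨hmaps q hq.1, hq.2⟩⟩
    have hc := hCMP E E' (E' × G) (N ∩ {x | g (f x) ≠ 0}) (M ∩ {y | g y ≠ 0})
      (TT M g ∩ {q | q.2 ≠ 0}) f (sg g) h1 hM.2.2
    exact hCN3 E (E × G) (E' × G) (N ∩ {x | (g ∘ f) x ≠ 0}) (TT N (g ∘ f) ∩ {q | q.2 ≠ 0})
      (TT M g ∩ {q | q.2 ≠ 0}) (sg (g ∘ f)) (fun q : E × G => ((f q.1, q.2) : E' × G))
      hmp hN.2.2 hc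
  -- (b) the parts with short vector
  have hb : WE (TT N (g ∘ f) ∩ {q : E × G | ‖q.2‖ < 1}) (TT M g ∩ {q : E' × G | ‖q.2‖ < 1})
      (fun q : E × G => ((f q.1, q.2) : E' × G)) := by
    rw [TT_inter_ball, TT_inter_ball]
    exact hPRD E E' G (N ∩ {x | g (f x) = 0}) (M ∩ {y | g y = 0}) (ball (0 : G) 1) f h0
  -- (c) both
  have hc : WE (TT N (g ∘ f) ∩ ({q : E × G | q.2 ≠ 0} ∩ {q : E × G | ‖q.2‖ < 1}))
      (TT M g ∩ ({q : E' × G | q.2 ≠ 0} ∩ {q : E' × G | ‖q.2‖ < 1}))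
      (fun q : E × G => ((f q.1, q.2) : E' × G)) := by
    rw [TT_inter_ball_ne, TT_inter_ball_ne]
    exact hPRD E E' G (N ∩ {x | g (f x) = 0}) (M ∩ {y | g y = 0})
      (ball (0 : G) 1 ∩ {v | v ≠ 0}) f h0
  have hcov : ∀ (T : Type) (S : Set (T × G)),
      S ⊆ {q : T × G | q.2 ≠ 0} ∪ {q : T × G | ‖q.2‖ < 1} := by
    intro T S q _
    by_cases hq : q.2 = 0
    · right
      change ‖q.2‖ < 1
      rw [hq, norm_zero]
      exact one_pos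
    · left
      exact hq
  have hT : WE (TT N (g ∘ f)) (TT M g) (fun q : E × G => ((f q.1, q.2) : E' × G)) := by
    refine hGLU (E × G) (E' × G) (TT N (g ∘ f)) (TT M g) _ {q | q.2 ≠ 0} {q | ‖q.2‖ < 1}
      {q | q.2 ≠ 0} {q | ‖q.2‖ < 1} ?_ ?_ ?_ ?_ (hcov _ _) (hcov _ _) ha hb hc
    · exact isOpen_ne.preimage continuous_snd
    · exact isOpen_lt (continuous_norm.comp continuous_snd) continuous_const
    · exact isOpen_ne.preimage continuous_snd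
    · exact isOpen_lt (continuous_norm.comp continuous_snd) continuous_const
  have hfin := hCMP (E × G) (E' × G) E' (TT N (g ∘ f)) (TT M g) M
    (fun q : E × G => ((f q.1, q.2) : E' × G)) Prod.fst hT hM.2.1
  exact hCN3 (E × G) E E' (TT N (g ∘ f)) N M Prod.fst f hf hN.2.1 hfin

end Pool.Agent.Helper90.FX
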