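import Pool.Agent.Helper84.FX.StX

set_option autoImplicit false

/-!
# FX MODULE T6Y: `Y` over an allowed set `U` of parameters is weakly equivalent to `U`
-/

namespace Pool.Agent.Helper90.FX

open Pool.Agent.Helper84.FX Pool.Agent.Helper72.FX

open Set

private theorem we_proj (hHEQ : StHEQ) (U : Set ℂ) :
    WE {q : ℂ × (Fin 12 → ℂ) | q.2 2 ∈ U} U (fun q => q.2 2) := by
  refine hHEQ (ℂ × (Fin 12 → ℂ)) ℂ {q : ℂ × (Fin 12 → ℂ) | q.2 2 ∈ U} U (fun q => q.2 2)
    (fun t => ((0 : ℂ), fun j : Fin 12 => if j = 2 then t else 0)) ?_ ?_ ?_ ?_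
  · refine ⟨Continuous.continuousOn (by fun_prop), fun q hq => hq⟩
  · refine ⟨Continuous.continuousOn ?_, fun t ht => ?_⟩
    · refine continuous_const.prodMk (continuous_pi fun j => ?_)
      by_cases hj : j = 2
      · simp only [if_pos hj]
        exact continuous_id
      · simp only [if_neg hj]
        exact continuous_const
    · change (if (2 : Fin 12) = 2 then t else 0) ∈ U
      rw [if_pos rfl]
      exact ht
  · refine ⟨fun p : ℝ × (ℂ × (Fin 12 → ℂ)) => ((p.1 : ℂ) * p.2.1,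
      fun j : Fin 12 => if j = 2 then p.2.2 j else (p.1 : ℂ) * p.2.2 j), ⟨?_, ?_⟩, ?_, ?_⟩
    · refine Continuous.continuousOn ?_
      refine Continuous.prodMk ?_ (continuous_pi fun j => ?_)
      · exact (Complex.continuous_ofReal.comp continuous_fst).mul
          (continuous_fst.comp continuous_snd)
      · have hc : Continuous (fun p : ℝ × (ℂ × (Fin 12 → ℂ)) => p.2.2 j) :=
          (continuous_apply j).comp (continuous_snd.comp continuous_snd)
        by_cases hj : j = 2
        · simp only [if_pos hj]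
          exact hc
        · simp only [if_neg hj]
          exact (Complex.continuous_ofReal.comp continuous_fst).mul hc
    · rintro ⟨s, q⟩ ⟨-, hq⟩
      change (if (2 : Fin 12) = 2 then q.2 2 else (s : ℂ) * q.2 2) ∈ U
      rw [if_pos rfl]
      exact hq
    · intro q _
      refine Prod.ext ?_ (funext fun j => ?_)
      · change ((0 : ℝ) : ℂ) * q.1 = 0
        simp
      · change (if j = 2 then q.2 j else ((0 : ℝ) : ℂ) * q.2 j) = if j = 2 then q.2 2 else 0
        by_cases hj : j = 2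
        · rw [if_pos hj, if_pos hj, hj]
        · rw [if_neg hj, if_neg hj]
          simp
    · intro q _
      refine Prod.ext ?_ (funext fun j => ?_)
      · change ((1 : ℝ) : ℂ) * q.1 = q.1
        simp
      · change (if j = 2 then q.2 j else ((1 : ℝ) : ℂ) * q.2 j) = q.2 j
        by_cases hj : j = 2
        · rw [if_pos hj]
        · rw [if_neg hj]
          simp
  · refine ⟨fun p : ℝ × ℂ => p.2, ⟨continuous_snd.continuousOn, fun p hp => hp.2⟩, ?_, ?_⟩
    · intro t _
      change t = if (2 : Fin 12) = 2 then t else 0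
      rw [if_pos rfl]
    · intro t _
      rfl

theorem hT6Y : StGL → StTYU → StTCU → StY0 → StY1 → StHEQ → StCMP → StCGR → StT6Y := by
  intro hGL hTYU hTCU hY0 hY1 hHEQ hCMP hCGR U hU
  have hcont : Continuous toY := by
    unfold toY
    exact (continuous_apply (Sum.inl 0)).prodMk
      (continuous_pi fun j => continuous_apply (Sum.inr j))
  have hmp : Mp (YU U) {q : ℂ × (Fin 12 → ℂ) | q.2 2 ∈ U} toY :=
    ⟨hcont.continuousOn, fun y hy => hy.2⟩
  have h1 : WE (YU U) {q : ℂ × (Fin 12 → ℂ) | q.2 2 ∈ U} toY :=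
    hGL (Fin 2 ⊕ Fin 12 → ℂ) (ℂ × (Fin 12 → ℂ)) ℂ (YU U) {q | q.2 2 ∈ U} toY (fun q => q.1)
      hmp (hTCU U hU.1) (hTYU U hU.1) (hY0 U hU) (hY1 U)
  have h2 := hCMP (Fin 2 ⊕ Fin 12 → ℂ) (ℂ × (Fin 12 → ℂ)) ℂ (YU U)
    {q : ℂ × (Fin 12 → ℂ) | q.2 2 ∈ U} U toY (fun q => q.2 2) h1 (we_proj hHEQ U)
  exact hCGR (Fin 2 ⊕ Fin 12 → ℂ) ℂ (YU U) U _ tY (fun x _ => rfl) h2

end Pool.Agent.Helper90.FX
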